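import Mathlib
set_option autoImplicit false
namespace Pool.Agent.U136.Leg
open Polynomial Finset

/-- all the complex zeros of `p` are real (or `p = 0`) -/
def OnlyReal (p : ℝ[X]) : Prop := p = 0 ∨ ∀ z : ℂ, aeval z p = 0 → z.im = 0

theorem splits_of_onlyReal : ∀ (n : ℕ) (p : ℝ[X]), p.natDegree = n → OnlyReal p → p.Splits := by
  intro n
  induction n with
  | zero =>
    intro p hp _
    exact Splits.of_natDegree_eq_zero hp
  | succ n ih =>
    intro p hp h
    have hp0 : p ≠ 0 := by
      rintro rfl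
      simp at hp
    rcases h with h | h
    · exact absurd h hp0
    · have hdeg : (p.map (algebraMap ℝ ℂ)).degree ≠ 0 := by
        rw [degree_map, degree_eq_natDegree hp0, hp]
        exact_mod_cast Nat.succ_ne_zero n
      obtain ⟨z, hz⟩ := IsAlgClosed.exists_root (p.map (algebraMap ℝ ℂ)) hdeg
      have hz' : aeval z p = 0 := by
        rw [IsRoot, eval_map_algebraMap] at hz; exact hz
      have him := h z hz'
      have hzr : z = (algebraMap ℝ ℂ) z.re := by
        apply Complex.ext <;> simp [him]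
      rw [hzr, aeval_algebraMap_apply] at hz'
      have hr : p.IsRoot z.re := by
        have : (algebraMap ℝ ℂ) (eval z.re p) = 0 := by
          simpa using hz'
        exact (map_eq_zero_iff _ (algebraMap ℝ ℂ).injective).1 this
      obtain ⟨q, hq⟩ := dvd_iff_isRoot.2 hr
      have hq0 : q ≠ 0 := by
        rintro rfl
        simp at hq; exact hp0 hq
      have hqd : q.natDegree = n := by
        rw [hq, natDegree_mul (X_sub_C_ne_zero _) hq0, natDegree_X_sub_C] at hp
        omega
      have hqs := ih q hqd (Or.inr (fun w hw => h w (by rw [hq, map_mul, hw, mul_zero])))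
      rw [hq]
      exact (Splits.X_sub_C _).mul hqs

theorem laguerre (p : ℝ[X]) (h : p.Splits) (x : ℝ) :
    p.eval x * (derivative (derivative p)).eval x ≤ ((derivative p).eval x) ^ 2 := by
  have key : ∀ s : Multiset ℝ, ((s.map (fun r => X - C r)).prod).eval x *
      (derivative (derivative (s.map (fun r => X - C r)).prod)).eval x ≤
      ((derivative (s.map (fun r => X - C r)).prod).eval x) ^ 2 := by
    intro s
    induction s using Multiset.induction with
    | empty => simp
    | cons a s ih =>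
      rw [Multiset.map_cons, Multiset.prod_cons]
      set q := (s.map (fun r => X - C r)).prod with hq
      simp only [derivative_mul, derivative_add, derivative_sub, derivative_X, derivative_C,
        eval_mul, eval_add, eval_sub, eval_X, eval_C, eval_one, eval_zero, derivative_one,
        derivative_zero]
      nlinarith [sq_nonneg (q.eval x), mul_nonneg (sq_nonneg (x - a)) (sub_nonneg.2 ih)]
  have h2 := h.eq_prod_roots
  rw [h2]
  simp only [derivative_C_mul, eval_mul, eval_C]
  have := key p.roots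
  nlinarith [mul_nonneg (sq_nonneg p.leadingCoeff) (sub_nonneg.2 this)]

theorem splits_derivative (p : ℝ[X]) (h : p.Splits) : (derivative p).Splits := by
  rw [splits_iff_card_roots] at h ⊢
  have h1 := card_roots_le_derivative p
  have h2 := card_roots' (derivative p)
  have h3 := natDegree_derivative_le p
  rcases Nat.eq_zero_or_pos p.natDegree with h4 | h4
  · have : (derivative p).natDegree = 0 := by omega
    omega
  · omega

theorem splits_iterate (p : ℝ[X]) (h : p.Splits) (j : ℕ) : (derivative^[j] p).Splits := by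
  induction j with
  | zero => simpa using h
  | succ j ih =>
    rw [Function.iterate_succ_apply']
    exact splits_derivative _ ih

theorem laguerre_coeff (p : ℝ[X]) (h : OnlyReal p) (j : ℕ) :
    (j.factorial * p.coeff j) * ((j + 2).factorial * p.coeff (j + 2)) ≤
      ((j + 1).factorial * p.coeff (j + 1)) ^ 2 := by
  have hs := splits_of_onlyReal _ p rfl h
  have h1 := laguerre _ (splits_iterate p hs j) 0
  have h2 : ∀ i : ℕ, (derivative^[i] p).eval 0 = i.factorial * p.coeff i := by
    intro i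
    rw [← coeff_zero_eq_eval_zero, coeff_iterate_derivative]
    simp [Nat.descFactorial_self]
  have h3 : derivative (derivative^[j] p) = derivative^[j + 1] p :=
    (Function.iterate_succ_apply' _ _ _).symm
  have h4 : derivative (derivative^[j + 1] p) = derivative^[j + 2] p :=
    (Function.iterate_succ_apply' _ _ _).symm
  rw [h3, h4, h2, h2, h2] at h1
  exact h1

/-- Rodrigues' formula -/
noncomputable def P (n : ℕ) : ℝ[X] :=
  C (1 / (2 ^ n * (n.factorial : ℝ))) * derivative^[n] ((X ^ 2 - 1) ^ n)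

theorem ode_base (n : ℕ) : (X ^ 2 - 1 : ℝ[X]) * derivative ((X ^ 2 - 1) ^ n) =
    C (2 * (n : ℝ)) * X * (X ^ 2 - 1) ^ n := by
  cases n with
  | zero => simp
  | succ n =>
    rw [derivative_pow]
    simp only [derivative_sub, derivative_X_pow, derivative_one, C_mul, Nat.add_sub_cancel]
    push_cast
    simp only [map_natCast, map_add, map_one, map_ofNat]
    ring

theorem ode_aux (n k : ℕ) : (X ^ 2 - 1 : ℝ[X]) * derivative^[k + 2] ((X ^ 2 - 1) ^ n) =
    C (2 * ((n : ℝ) - k - 1)) * X * derivative^[k + 1] ((X ^ 2 - 1) ^ n) +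
      C (((k : ℝ) + 1) * (2 * n - k)) * derivative^[k] ((X ^ 2 - 1) ^ n) := by
  induction k with
  | zero =>
    have h := congrArg derivative (ode_base n)
    rw [derivative_mul, derivative_mul, derivative_mul] at h
    simp only [derivative_sub, derivative_X_pow, derivative_one, derivative_C, derivative_X] at h
    have e1 : derivative^[0 + 2] ((X ^ 2 - 1 : ℝ[X]) ^ n) = derivative (derivative ((X ^ 2 - 1) ^ n)) := rfl
    have e2 : derivative^[0 + 1] ((X ^ 2 - 1 : ℝ[X]) ^ n) = derivative ((X ^ 2 - 1) ^ n) := rfl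
    have e3 : derivative^[0] ((X ^ 2 - 1 : ℝ[X]) ^ n) = ((X ^ 2 - 1) ^ n) := rfl
    rw [e1, e2, e3]
    generalize derivative (derivative ((X ^ 2 - 1 : ℝ[X]) ^ n)) = w2 at h ⊢
    generalize derivative ((X ^ 2 - 1 : ℝ[X]) ^ n) = w1 at h ⊢
    generalize ((X ^ 2 - 1 : ℝ[X]) ^ n) = w0 at h ⊢
    simp only [map_mul, map_sub, map_add, map_one, map_natCast, Nat.cast_zero, map_zero, map_ofNat] at h ⊢
    push_cast at h
    linear_combination h
  | succ k ih =>
    have h := congrArg derivative ih
    rw [derivative_add, derivative_mul, derivative_mul, derivative_mul, derivative_C_mul] at h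
    simp only [derivative_sub, derivative_X_pow, derivative_one, derivative_C, derivative_X] at h
    have e1 : derivative (derivative^[k + 2] ((X ^ 2 - 1 : ℝ[X]) ^ n)) =
      derivative^[k + 1 + 2] ((X ^ 2 - 1) ^ n) := (Function.iterate_succ_apply' _ _ _).symm
    have e2 : derivative (derivative^[k + 1] ((X ^ 2 - 1 : ℝ[X]) ^ n)) =
      derivative^[k + 2] ((X ^ 2 - 1) ^ n) := (Function.iterate_succ_apply' _ _ _).symm
    have e3 : derivative (derivative^[k] ((X ^ 2 - 1 : ℝ[X]) ^ n)) =
      derivative^[k + 1] ((X ^ 2 - 1) ^ n) := (Function.iterate_succ_apply' _ _ _).symm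
    have e4 : derivative^[k + 1 + 1] ((X ^ 2 - 1 : ℝ[X]) ^ n) =
      derivative^[k + 2] ((X ^ 2 - 1) ^ n) := rfl
    rw [e1, e2, e3] at h
    rw [e4]
    generalize derivative^[k + 1 + 2] ((X ^ 2 - 1 : ℝ[X]) ^ n) = w3 at h ⊢
    generalize derivative^[k + 2] ((X ^ 2 - 1 : ℝ[X]) ^ n) = w2 at h ⊢
    generalize derivative^[k + 1] ((X ^ 2 - 1 : ℝ[X]) ^ n) = w1 at h ⊢
    simp only [map_mul, map_sub, map_add, map_one, map_natCast, Nat.cast_zero, map_zero, map_ofNat] at h ⊢
    push_cast at h ⊢
    linear_combination h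

theorem ode (n : ℕ) : derivative ((X ^ 2 - 1) * derivative (P n)) = C ((n : ℝ) * (n + 1)) * P n := by
  have h := ode_aux n n
  unfold P
  rw [derivative_C_mul, derivative_mul, derivative_C_mul]
  have e1 : derivative (derivative^[n] ((X ^ 2 - 1 : ℝ[X]) ^ n)) =
      derivative^[n + 1] ((X ^ 2 - 1) ^ n) := (Function.iterate_succ_apply' _ _ _).symm
  have e2 : derivative (derivative^[n + 1] ((X ^ 2 - 1 : ℝ[X]) ^ n)) =
      derivative^[n + 2] ((X ^ 2 - 1) ^ n) := (Function.iterate_succ_apply' _ _ _).symm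
  rw [e1, e2]
  simp only [derivative_sub, derivative_X_pow, derivative_one]
  generalize derivative^[n + 2] ((X ^ 2 - 1 : ℝ[X]) ^ n) = w2 at h ⊢
  generalize derivative^[n + 1] ((X ^ 2 - 1 : ℝ[X]) ^ n) = w1 at h ⊢
  generalize derivative^[n] ((X ^ 2 - 1 : ℝ[X]) ^ n) = w0 at h ⊢
  simp only [map_mul, map_sub, map_add, map_one, map_natCast, Nat.cast_zero, map_zero, map_ofNat] at h ⊢
  push_cast at h ⊢
  linear_combination (C (1 / (2 ^ n * (n.factorial : ℝ)))) * h

theorem natDegree_w (n : ℕ) : ((X ^ 2 - 1 : ℝ[X]) ^ n).natDegree = 2 * n := by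
  rw [natDegree_pow]
  have : (X ^ 2 - 1 : ℝ[X]).natDegree = 2 := by
    have := natDegree_X_pow_sub_C (n := 2) (r := (1 : ℝ))
    simpa using this
  rw [this, mul_comm]

theorem coeff_w (n : ℕ) : ((X ^ 2 - 1 : ℝ[X]) ^ n).coeff (2 * n) = 1 := by
  have h1 : (X ^ 2 - 1 : ℝ[X]).Monic := by
    have := monic_X_pow_sub_C (1 : ℝ) (n := 2) (by norm_num)
    simpa using this
  have h2 := (h1.pow n).leadingCoeff
  unfold leadingCoeff at h2
  rw [natDegree_w] at h2
  exact h2

theorem P_coeff_top (n : ℕ) : (P n).coeff n ≠ 0 := by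
  unfold P
  rw [coeff_C_mul, coeff_iterate_derivative, ← two_mul, coeff_w]
  have h1 : 0 < (2 * n).descFactorial n := Nat.descFactorial_pos.2 (by omega)
  have : (1 / (2 ^ n * (n.factorial : ℝ))) * ((2 * n).descFactorial n • (1 : ℝ)) > 0 := by
    rw [nsmul_eq_mul]
    positivity
  exact this.ne'

theorem P_natDegree (n : ℕ) : (P n).natDegree = n := by
  apply le_antisymm
  · unfold P
    refine (natDegree_C_mul_le _ _).trans ?_
    rw [natDegree_le_iff_coeff_eq_zero]
    intro N hN
    rw [coeff_iterate_derivative, coeff_eq_zero_of_natDegree_lt]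
    · simp
    · rw [natDegree_w]; omega
  · exact le_natDegree_of_ne_zero (P_coeff_top n)

/-- the shifted Legendre polynomials -/
noncomputable def S (n : ℕ) : ℝ[X] := (P n).comp (C 2 * X - 1)

/-- `L f = -(t(1-t) f')'` -/
noncomputable def L : Module.End ℝ ℝ[X] :=
  -(derivative ∘ₗ LinearMap.mulLeft ℝ (X - X ^ 2) ∘ₗ derivative)

theorem L_apply (f : ℝ[X]) : L f = - derivative ((X - X ^ 2) * derivative f) := rfl

theorem L_S (n : ℕ) : L (S n) = ((n : ℝ) * (n + 1)) • S n := by
  rw [L_apply]
  unfold S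
  rw [derivative_comp]
  have h : (derivative ((X ^ 2 - 1) * derivative (P n))).comp (C 2 * X - 1) =
      (C ((n : ℝ) * (n + 1)) * P n).comp (C 2 * X - 1) := by rw [ode n]
  rw [mul_comp, C_comp] at h
  rw [smul_eq_C_mul, ← h]
  simp only [derivative_sub, derivative_C_mul, derivative_X, derivative_one]
  rw [derivative_mul, derivative_mul, derivative_mul, add_comp, mul_comp, mul_comp, derivative_comp]
  simp only [derivative_sub, derivative_C_mul, derivative_X, derivative_one, derivative_X_pow,
    derivative_C, mul_comp, sub_comp, X_comp, one_comp, pow_comp, C_comp, natCast_comp]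
  have h2 : (C (2 : ℝ) : ℝ[X]) = 2 := rfl
  push_cast
  simp only [derivative_zero, zero_comp, mul_zero, sub_zero, zero_sub, mul_one, pow_one, zero_mul, zero_add]
  rw [h2]
  ring

theorem lin_deg : (C 2 * X - 1 : ℝ[X]).natDegree = 1 := by
  have := natDegree_linear (a := (2 : ℝ)) (b := -1) (by norm_num)
  rw [C_neg, C_1, ← sub_eq_add_neg] at this
  exact this

theorem S_natDegree (n : ℕ) : (S n).natDegree = n := by
  unfold S
  rw [natDegree_comp, P_natDegree, lin_deg, mul_one]

theorem S_ne (n : ℕ) : S n ≠ 0 := by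
  unfold S
  intro h
  have h1 : P n ≠ 0 := by
    intro h2
    apply P_coeff_top n
    rw [h2, coeff_zero]
  rcases comp_eq_zero_iff.1 h with h3 | ⟨_, h4⟩
  · exact h1 h3
  · have := congrArg natDegree h4
    rw [lin_deg, natDegree_C] at this
    omega

theorem S_coeff_top (n : ℕ) : (S n).coeff n ≠ 0 := by
  have h := leadingCoeff_ne_zero.2 (S_ne n)
  unfold leadingCoeff at h
  rwa [S_natDegree] at h

theorem exists_expansion (n : ℕ) : ∀ p : ℝ[X], p.natDegree ≤ n →
    ∃ a : ℕ → ℝ, p = ∑ k ∈ range (n + 1), a k • S k := by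
  induction n with
  | zero =>
    intro p hp
    refine ⟨fun _ => p.coeff 0 / (S 0).coeff 0, ?_⟩
    rw [zero_add, Finset.sum_range_one]
    rw [eq_C_of_natDegree_le_zero hp]
    conv_rhs => rw [eq_C_of_natDegree_le_zero (S_natDegree 0).le]
    rw [smul_C, coeff_C_zero, coeff_C_zero, smul_eq_mul, div_mul_cancel₀ _ (S_coeff_top 0)]
  | succ n ih =>
    intro p hp
    set c := p.coeff (n + 1) / (S (n + 1)).coeff (n + 1) with hc
    have h1 : (p - c • S (n + 1)).natDegree ≤ n := by
      rw [natDegree_le_iff_coeff_eq_zero]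
      intro N hN
      rw [coeff_sub, coeff_smul]
      rcases eq_or_lt_of_le (Nat.succ_le_of_lt hN) with h | h
      · rw [← h, Nat.succ_eq_add_one, smul_eq_mul, hc, div_mul_cancel₀ _ (S_coeff_top _), sub_self]
      · rw [coeff_eq_zero_of_natDegree_lt (lt_of_le_of_lt hp h),
          coeff_eq_zero_of_natDegree_lt (by rw [S_natDegree]; exact h)]
        simp
    obtain ⟨a, ha⟩ := ih _ h1
    refine ⟨fun k => if k = n + 1 then c else a k, ?_⟩
    rw [Finset.sum_range_succ]
    simp only [if_true]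
    have h2 : ∑ k ∈ range (n + 1), (if k = n + 1 then c else a k) • S k =
        ∑ k ∈ range (n + 1), a k • S k := by
      apply Finset.sum_congr rfl
      intro k hk
      rw [Finset.mem_range] at hk
      rw [if_neg (by omega)]
    rw [h2, ← ha]
    ring

/-- `(a)_n` -/
noncomputable def poch (a : ℝ) (n : ℕ) : ℝ := ∏ i ∈ range n, (a + i)

theorem poch_succ (a : ℝ) (n : ℕ) : poch a (n + 1) = poch a n * (a + n) := by
  unfold poch; rw [Finset.prod_range_succ]

theorem poch_pos {a : ℝ} (ha : 0 < a) (n : ℕ) : 0 < poch a n :=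
  Finset.prod_pos fun i _ => by positivity

/-- the coefficients of `N t^n` -/
noncomputable def b (n j : ℕ) : ℝ :=
  (2 * (j : ℝ) + 1) * (n.choose j : ℝ) * poch (-1 / 2) (n - j) * poch (1 / 2) j / poch (1 / 2) n

theorem b_gt {n j : ℕ} (h : n < j) : b n j = 0 := by
  unfold b; rw [Nat.choose_eq_zero_of_lt h]; simp

theorem b_self (n : ℕ) : b n n = 2 * (n : ℝ) + 1 := by
  unfold b
  have := (poch_pos (a := 1 / 2) (by norm_num) n).ne'
  rw [Nat.choose_self, Nat.sub_self]
  simp only [poch, Finset.prod_range_zero, Nat.cast_one, mul_one]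
  unfold poch at this
  field_simp

theorem b_rec (m j : ℕ) :
    (((m : ℝ) + 1) * (m + 2) - (j : ℝ) * (j + 1)) * b (m + 1) j =
      ((m : ℝ) + 1) ^ 2 * b m j - ((j : ℝ) + 1) ^ 2 * b (m + 1) (j + 1) := by
  rcases lt_trichotomy (m + 1) j with h | h | h
  · rw [b_gt h, b_gt (by omega), b_gt (by omega)]; ring
  · subst h
    rw [b_gt (show m < m + 1 by omega), b_gt (show m + 1 < m + 1 + 1 by omega)]
    push_cast; ring
  · obtain ⟨l, rfl⟩ : ∃ l, m = j + l := ⟨m - j, by omega⟩
    unfold b
    have e1 : j + l + 1 - j = l + 1 := by omega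
    have e2 : j + l - j = l := by omega
    have e3 : j + l + 1 - (j + 1) = l := by omega
    rw [e1, e2, e3, poch_succ (-1 / 2) l, poch_succ (1 / 2) j, poch_succ (1 / 2) (j + l)]
    have hQ := (poch_pos (a := 1 / 2) (by norm_num) (j + l)).ne'
    have hq := (poch_pos (a := 1 / 2) (by norm_num) j).ne'
    have hQ2 : ((1 : ℝ) / 2 + ((j + l : ℕ) : ℝ)) ≠ 0 := by positivity
    have c1 : ((j + l).choose j : ℝ) * ((j : ℝ) + l + 1) = ((j + l + 1).choose j : ℝ) * (l + 1) := by
      have := Nat.choose_mul_succ_eq (j + l) j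
      rw [e1] at this
      exact_mod_cast this
    have c2 : ((j + l + 1).choose (j + 1) : ℝ) * ((j : ℝ) + 1) = ((j + l + 1).choose j : ℝ) * (l + 1) := by
      have := Nat.choose_succ_right_eq (j + l + 1) j
      rw [e1] at this
      exact_mod_cast this
    generalize ((j + l).choose j : ℝ) = x at *
    generalize ((j + l + 1).choose j : ℝ) = y at *
    generalize ((j + l + 1).choose (j + 1) : ℝ) = z at *
    generalize poch (1 / 2) (j + l) = Q at *
    generalize poch (1 / 2) j = q at *
    generalize poch (-1 / 2) l = p at *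
    push_cast at *
    have hQ3 : (1 + 2 * ((j : ℝ) + l)) ≠ 0 := by positivity
    field_simp
    have key : (((j : ℝ) + l + 1) * (j + l + 2) - j * (j + 1)) * (2 * j + 1) * y * (2 * l - 1) =
        ((j : ℝ) + l + 1) * (2 * j + 1) * (x * (j + l + 1)) * (2 * (j + l) + 1) -
        (j + 1) * (2 * j + 3) * (z * (j + 1)) * (2 * j + 1) := by
      rw [c1, c2]; ring
    linear_combination (p) * key

theorem L_coeff (f : ℝ[X]) (j : ℕ) :
    (L f).coeff j = (j : ℝ) * (j + 1) * f.coeff j - ((j : ℝ) + 1) ^ 2 * f.coeff (j + 1) := by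
  rw [L_apply, coeff_neg, coeff_derivative]
  have h1 : (X - X ^ 2 : ℝ[X]) * derivative f = X * (derivative f - X * derivative f) := by ring
  rw [h1, coeff_X_mul, coeff_sub, coeff_derivative]
  cases j with
  | zero => simp
  | succ j =>
    rw [coeff_X_mul, coeff_derivative]
    push_cast
    ring

/-- `N t^n` -/
noncomputable def Nt (n : ℕ) : ℝ[X] := ∑ j ∈ range (n + 1), C (b n j) * X ^ j

theorem Nt_coeff (n j : ℕ) : (Nt n).coeff j = b n j := by
  unfold Nt
  rw [finsetSum_coeff]
  simp only [coeff_C_mul, coeff_X_pow]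
  by_cases h : j ≤ n
  · rw [Finset.sum_eq_single j]
    · simp
    · intro i _ hi; simp [Ne.symm hi]
    · intro hj; exfalso; apply hj; rw [Finset.mem_range]; omega
  · rw [b_gt (by omega)]
    apply Finset.sum_eq_zero
    intro i hi
    rw [Finset.mem_range] at hi
    have : j ≠ i := by omega
    simp [this]

/-- the operator `N` with `N S_k = (2k+1) S_k` -/
noncomputable def Nop : Module.End ℝ ℝ[X] := (basisMonomials ℝ).constr ℝ Nt

theorem Nop_monomial (n : ℕ) : Nop (monomial n 1) = Nt n := by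
  have h := (basisMonomials ℝ).constr_basis ℝ Nt n
  rw [coe_basisMonomials] at h
  exact h

theorem L_monomial (n : ℕ) : L (monomial n 1) =
    ((n : ℝ) * (n + 1)) • monomial n (1 : ℝ) - ((n : ℝ) ^ 2) • monomial (n - 1) (1 : ℝ) := by
  ext j
  rw [L_coeff, coeff_sub, coeff_smul, coeff_smul, coeff_monomial, coeff_monomial, coeff_monomial]
  rcases eq_or_ne n j with h | h
  · subst h
    rw [if_pos rfl, if_neg (by omega)]
    cases n with
    | zero => simp
    | succ n => rw [if_neg (by omega)]; simp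
  · rw [if_neg h]
    rcases eq_or_ne n (j + 1) with h2 | h2
    · subst h2
      rw [if_pos rfl, if_pos (by omega)]
      push_cast; simp
    · rw [if_neg h2]
      rcases Nat.eq_zero_or_pos n with h3 | h3
      · subst h3; simp
      · rw [if_neg (by omega)]; simp

theorem comm : L ∘ₗ Nop = Nop ∘ₗ L := by
  apply (basisMonomials ℝ).ext
  intro n
  rw [coe_basisMonomials]
  simp only [LinearMap.comp_apply]
  rw [Nop_monomial, L_monomial, map_sub, map_smul, map_smul, Nop_monomial, Nop_monomial]
  ext j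
  rw [L_coeff, coeff_sub, coeff_smul, coeff_smul, Nt_coeff, Nt_coeff, Nt_coeff]
  cases n with
  | zero =>
    cases j with
    | zero => simp [b_gt]
    | succ j => rw [b_gt (by omega), b_gt (by omega)]; simp
  | succ m =>
    have := b_rec m j
    simp only [Nat.add_sub_cancel, smul_eq_mul]
    push_cast
    linear_combination (-1 : ℝ) * this

theorem Nop_coeff (f : ℝ[X]) (j : ℕ) :
    (Nop f).coeff j = ∑ n ∈ range (f.natDegree + 1), f.coeff n * b n j := by
  conv_lhs => rw [f.as_sum_range, map_sum, finsetSum_coeff]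
  apply Finset.sum_congr rfl
  intro n _
  have : monomial n (f.coeff n) = f.coeff n • monomial n (1 : ℝ) := by
    rw [smul_monomial, smul_eq_mul, mul_one]
  rw [this, map_smul, Nop_monomial, coeff_smul, Nt_coeff, smul_eq_mul]

theorem uniq (k : ℕ) (g : ℝ[X]) (h : L g = ((k : ℝ) * (k + 1)) • g) (hz : ∀ i, k ≤ i → g.coeff i = 0) :
    g = 0 := by
  by_contra hg
  have h1 : g.natDegree < k := by
    by_contra hk
    apply leadingCoeff_ne_zero.2 hg
    exact hz _ (by omega)
  have h2 := congrArg (fun p => p.coeff g.natDegree) h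
  simp only [L_coeff, coeff_smul, smul_eq_mul] at h2
  rw [coeff_eq_zero_of_natDegree_lt (Nat.lt_succ_self g.natDegree)] at h2
  have h3 : g.coeff g.natDegree ≠ 0 := leadingCoeff_ne_zero.2 hg
  have h4 : (g.natDegree : ℝ) < k := by exact_mod_cast h1
  have h5 : (0 : ℝ) ≤ g.natDegree := by positivity
  have h6 : (g.natDegree : ℝ) * (g.natDegree + 1) = k * (k + 1) := by
    apply mul_right_cancel₀ h3
    linarith
  nlinarith

theorem Nop_S (k : ℕ) : Nop (S k) = (2 * (k : ℝ) + 1) • S k := by
  have hL : L (Nop (S k)) = ((k : ℝ) * (k + 1)) • Nop (S k) := by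
    have := congrArg (fun T : ℝ[X] →ₗ[ℝ] ℝ[X] => T (S k)) comm
    simp only [LinearMap.comp_apply] at this
    rw [this, L_S, map_smul]
  have h0 := uniq k (Nop (S k) - (2 * (k : ℝ) + 1) • S k) (by
      rw [map_sub, hL, map_smul, L_S, smul_sub, smul_comm]) (by
      intro i hi
      rw [coeff_sub, coeff_smul, Nop_coeff, S_natDegree, smul_eq_mul]
      rcases eq_or_lt_of_le hi with h | h
      · subst h
        rw [Finset.sum_range_succ, b_self, Finset.sum_eq_zero]
        · ring
        · intro n hn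
          rw [Finset.mem_range] at hn
          rw [b_gt hn, mul_zero]
      · rw [coeff_eq_zero_of_natDegree_lt (by rw [S_natDegree]; exact h), Finset.sum_eq_zero]
        · ring
        · intro n hn
          rw [Finset.mem_range] at hn
          rw [b_gt (by omega), mul_zero])
  exact sub_eq_zero.1 h0

theorem b_zero (n : ℕ) : b n 0 * (2 * (n : ℝ) - 1) = -1 := by
  have h : poch (-1 / 2) n * (2 * (n : ℝ) - 1) = - poch (1 / 2) n := by
    induction n with
    | zero => simp [poch]
    | succ n ih =>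
      rw [poch_succ, poch_succ]
      push_cast
      linear_combination (1 / 2 * (2 * (n : ℝ) + 1)) * ih
  unfold b
  have hQ := (poch_pos (a := 1 / 2) (by norm_num) n).ne'
  have h0 : poch (1 / 2) 0 = 1 := by simp [poch]
  rw [h0, Nat.sub_zero, Nat.choose_zero_right]
  generalize poch (1 / 2) n = Q at *
  generalize poch (-1 / 2) n = p at *
  field_simp
  push_cast
  linear_combination h

theorem b_step (n j : ℕ) : b n (j + 1) * (((j : ℝ) + 1) * ((n : ℝ) - j - 3 / 2)) =
    b n j * ((2 * (j : ℝ) + 3) / 2 * ((n : ℝ) - j)) := by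
  rcases lt_trichotomy n j with h | h | h
  · rw [b_gt h, b_gt (by omega)]; ring
  · subst h
    rw [b_gt (show n < n + 1 by omega)]; ring
  · obtain ⟨l, rfl⟩ : ∃ l, n = j + 1 + l := ⟨n - (j + 1), by omega⟩
    unfold b
    have e1 : j + 1 + l - j = l + 1 := by omega
    have e3 : j + 1 + l - (j + 1) = l := by omega
    rw [e1, e3, poch_succ (-1 / 2) l, poch_succ (1 / 2) j]
    have hQ := (poch_pos (a := 1 / 2) (by norm_num) (j + 1 + l)).ne'
    have c2 : ((j + 1 + l).choose (j + 1) : ℝ) * ((j : ℝ) + 1) = ((j + 1 + l).choose j : ℝ) * (l + 1) := by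
      have := Nat.choose_succ_right_eq (j + 1 + l) j
      rw [e1] at this
      exact_mod_cast this
    generalize ((j + 1 + l).choose j : ℝ) = y at *
    generalize ((j + 1 + l).choose (j + 1) : ℝ) = z at *
    generalize poch (1 / 2) (j + 1 + l) = Q at *
    generalize poch (1 / 2) j = q at *
    generalize poch (-1 / 2) l = p at *
    push_cast
    field_simp
    linear_combination (p * q * (2 * (j : ℝ) + 3) * (2 * (j : ℝ) + 1) * (2 * (l : ℝ) - 1)) * c2

/-- `γ_j`, the limit of `n b n j` -/
noncomputable def v (i : ℕ) : ℕ → ℝ := fun j => poch (3 / 2) (j + i) / (j.factorial : ℝ)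

open Filter Topology in
theorem tendsto_b (j : ℕ) : Tendsto (fun n : ℕ => (n : ℝ) * b n j) atTop (𝓝 (-(1 / 2) * v 0 j)) := by
  have hn : Tendsto (fun n : ℕ => (n : ℝ)) atTop atTop := tendsto_natCast_atTop_atTop
  induction j with
  | zero =>
    have h1 : ∀ n : ℕ, (n : ℝ) * b n 0 = -(1 / 2) - (1 / 2) / (2 * (n : ℝ) - 1) := by
      intro n
      have h := b_zero n
      have h2 : (2 * (n : ℝ) - 1) ≠ 0 := by
        intro h3
        rw [h3, mul_zero] at h
        norm_num at h
      have h3 : b n 0 = -1 / (2 * (n : ℝ) - 1) := by rw [eq_div_iff h2]; exact h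
      rw [h3]
      have h4 : (n : ℝ) = ((2 * (n : ℝ) - 1) + 1) / 2 := by ring
      generalize 2 * (n : ℝ) - 1 = y at *
      rw [h4]
      field_simp
      ring
    simp_rw [h1]
    have h2 : Tendsto (fun n : ℕ => (1 / 2 : ℝ) / (2 * (n : ℝ) - 1)) atTop (𝓝 0) := by
      apply Tendsto.div_atTop tendsto_const_nhds
      apply tendsto_atTop_add_const_right
      exact hn.const_mul_atTop (by norm_num)
    have h3 := (tendsto_const_nhds (x := (-(1 / 2) : ℝ))).sub h2
    have h4 : (-(1 / 2) * v 0 0 : ℝ) = -(1 / 2) - 0 := by simp [v, poch]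
    rw [h4]; exact h3
  | succ j ih =>
    have h1 : ∀ n : ℕ, (n : ℝ) * b n (j + 1) =
        ((n : ℝ) * b n j) * ((2 * (j : ℝ) + 3) / 2 / ((j : ℝ) + 1)) *
          (1 + (3 / 2) / ((n : ℝ) - (j + 3 / 2))) := by
      intro n
      have h := b_step n j
      have h2 : ((n : ℝ) - (j + 3 / 2)) ≠ 0 := by
        intro h3
        have h4 : (2 * (n : ℝ)) = 2 * j + 3 := by linarith
        have h5 : 2 * n = 2 * j + 3 := by exact_mod_cast h4
        omega
      have h3 : ((j : ℝ) + 1) ≠ 0 := by positivity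
      have h4 : ((n : ℝ) - j - 3 / 2) ≠ 0 := by
        intro h5; apply h2; linarith
      have h6 : b n (j + 1) = b n j * ((2 * (j : ℝ) + 3) / 2 * ((n : ℝ) - j)) /
          (((j : ℝ) + 1) * ((n : ℝ) - j - 3 / 2)) := by
        rw [eq_div_iff (mul_ne_zero h3 h4)]; exact h
      rw [h6]
      have h7 : 1 + (3 / 2) / ((n : ℝ) - (j + 3 / 2)) = ((n : ℝ) - j) / ((n : ℝ) - j - 3 / 2) := by
        rw [eq_div_iff h4]
        have : (n : ℝ) - (j + 3 / 2) = (n : ℝ) - j - 3 / 2 := by ring
        rw [this, add_mul, div_mul_cancel₀ _ h4]; ring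
      rw [h7]
      field_simp
    simp_rw [h1]
    have h2 : Tendsto (fun n : ℕ => (3 / 2 : ℝ) / ((n : ℝ) - (j + 3 / 2))) atTop (𝓝 0) := by
      apply Tendsto.div_atTop tendsto_const_nhds
      apply tendsto_atTop_add_const_right
      exact hn
    have h3 := (ih.mul_const ((2 * (j : ℝ) + 3) / 2 / ((j : ℝ) + 1))).mul
      ((tendsto_const_nhds (x := (1 : ℝ))).add h2)
    have h4 : (-(1 / 2) * v 0 (j + 1) : ℝ) =
        -(1 / 2) * v 0 j * ((2 * (j : ℝ) + 3) / 2 / ((j : ℝ) + 1)) * (1 + 0) := by
      unfold v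
      rw [add_zero, add_zero, poch_succ, Nat.factorial_succ]
      have : (j.factorial : ℝ) ≠ 0 := by positivity
      push_cast
      field_simp
      ring
    rw [h4]; exact h3

/-- the action of `L` on coefficient sequences -/
noncomputable def LL : Module.End ℝ (ℕ → ℝ) where
  toFun c := fun j => (j : ℝ) * (j + 1) * c j - ((j : ℝ) + 1) ^ 2 * c (j + 1)
  map_add' x y := by ext j; simp only [Pi.add_apply]; ring
  map_smul' r x := by ext j; simp only [Pi.smul_apply, smul_eq_mul, RingHom.id_apply]; ring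

theorem LL_apply (c : ℕ → ℝ) (j : ℕ) :
    LL c j = (j : ℝ) * (j + 1) * c j - ((j : ℝ) + 1) ^ 2 * c (j + 1) := rfl

theorem pow_coeff (k : ℕ) (f : ℝ[X]) (j : ℕ) : ((L ^ k) f).coeff j = (LL ^ k) f.coeff j := by
  induction k generalizing j with
  | zero => simp
  | succ k ih =>
    rw [pow_succ', pow_succ', Module.End.mul_apply, Module.End.mul_apply, L_coeff, LL_apply, ih, ih]

theorem aeval_coeff (B f : ℝ[X]) (j : ℕ) : (aeval L B f).coeff j = aeval LL B f.coeff j := by
  rw [aeval_eq_sum_range, aeval_eq_sum_range, LinearMap.sum_apply, LinearMap.sum_apply,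
    finsetSum_coeff, Finset.sum_apply]
  apply Finset.sum_congr rfl
  intro k _
  rw [LinearMap.smul_apply, LinearMap.smul_apply, coeff_smul, Pi.smul_apply, pow_coeff]

theorem pow_low (k : ℕ) : ∀ (c : ℕ → ℝ) (s : ℕ), (∀ i < s, c i = 0) → ∀ i, i + k < s → (LL ^ k) c i = 0 := by
  induction k with
  | zero => intro c s h i hi; simpa using h i (by omega)
  | succ k ih =>
    intro c s h i hi
    rw [pow_succ', Module.End.mul_apply, LL_apply, ih c s h i (by omega), ih c s h (i + 1) (by omega)]
    ring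

theorem aeval_low (A : ℝ[X]) (n j : ℕ) (h : j + A.natDegree < n) :
    (aeval L A (X ^ n)).coeff j = 0 := by
  rw [aeval_coeff, aeval_eq_sum_range, LinearMap.sum_apply, Finset.sum_apply]
  apply Finset.sum_eq_zero
  intro k hk
  rw [Finset.mem_range] at hk
  rw [LinearMap.smul_apply, Pi.smul_apply, pow_low k _ n (by
    intro i hi
    rw [coeff_X_pow, if_neg (by omega)]) j (by omega), smul_zero]

open Filter Topology in
theorem tendsto_pow (k : ℕ) (x : ℕ → ℕ → ℝ) (c : ℕ → ℝ)
    (h : ∀ j, Tendsto (fun n => x n j) atTop (𝓝 (c j))) (j : ℕ) :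
    Tendsto (fun n => (LL ^ k) (x n) j) atTop (𝓝 ((LL ^ k) c j)) := by
  induction k generalizing j with
  | zero => simpa using h j
  | succ k ih =>
    simp only [pow_succ', Module.End.mul_apply, LL_apply]
    exact ((ih j).const_mul _).sub ((ih (j + 1)).const_mul _)

open Filter Topology in
theorem tendsto_aeval (B : ℝ[X]) (x : ℕ → ℕ → ℝ) (c : ℕ → ℝ)
    (h : ∀ j, Tendsto (fun n => x n j) atTop (𝓝 (c j))) (j : ℕ) :
    Tendsto (fun n => aeval LL B (x n) j) atTop (𝓝 (aeval LL B c j)) := by
  simp only [aeval_eq_sum_range, LinearMap.sum_apply, Finset.sum_apply, LinearMap.smul_apply,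
    Pi.smul_apply, smul_eq_mul]
  apply tendsto_finsetSum
  intro k _
  exact (tendsto_pow k x c h j).const_mul _

theorem LL_v (i : ℕ) : LL (v i) = (-(3 / 2 + (i : ℝ))) • v (i + 1) +
    ((3 / 2 + (i : ℝ)) * (1 / 2 + i)) • v i := by
  ext j
  rw [LL_apply]
  simp only [Pi.add_apply, Pi.smul_apply, smul_eq_mul, v]
  have e1 : j + 1 + i = j + i + 1 := by omega
  have e2 : j + (i + 1) = j + i + 1 := by omega
  rw [e1, e2, poch_succ, Nat.factorial_succ]
  have : (j.factorial : ℝ) ≠ 0 := by positivity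
  push_cast
  field_simp
  ring

theorem pow_v (k : ℕ) : ∃ e : ℕ → ℝ, e k ≠ 0 ∧ (LL ^ k) (v 0) = ∑ i ∈ range (k + 1), e i • v i := by
  induction k with
  | zero => exact ⟨fun _ => 1, one_ne_zero, by simp⟩
  | succ k ih =>
    obtain ⟨e, he, h⟩ := ih
    refine ⟨fun i => (if i = 0 then 0 else -(1 / 2 + (i : ℝ)) * e (i - 1)) +
      (if i = k + 1 then 0 else (3 / 2 + (i : ℝ)) * (1 / 2 + i) * e i), ?_, ?_⟩
    · simp only [Nat.add_eq_zero_iff, one_ne_zero, and_false, if_false, if_true, add_zero,
        Nat.add_sub_cancel]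
      apply mul_ne_zero _ he
      have : (0 : ℝ) < 1 / 2 + ((k + 1 : ℕ) : ℝ) := by positivity
      linarith
    · rw [pow_succ', Module.End.mul_apply, h, map_sum]
      simp only [map_smul, LL_v, smul_add, smul_smul, Finset.sum_add_distrib, add_smul]
      congr 1
      · rw [Finset.sum_range_succ' (fun i => (if i = 0 then (0 : ℝ) else -(1 / 2 + (i : ℝ)) * e (i - 1)) • v i)]
        rw [if_pos rfl, zero_smul, add_zero]
        apply Finset.sum_congr rfl
        intro i _
        rw [if_neg (by omega), Nat.add_sub_cancel]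
        congr 1
        push_cast; ring
      · rw [Finset.sum_range_succ (fun i => (if i = k + 1 then (0 : ℝ) else (3 / 2 + (i : ℝ)) * (1 / 2 + i) * e i) • v i)]
        rw [if_pos rfl, zero_smul, add_zero]
        apply Finset.sum_congr rfl
        intro i hi
        rw [Finset.mem_range] at hi
        rw [if_neg (by omega)]
        congr 1
        ring

theorem poch_mono (a : ℝ) (ha : 1 ≤ a) {i m : ℕ} (h : i ≤ m) : poch a i ≤ poch a m := by
  induction m, h using Nat.le_induction with
  | base => exact le_rfl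
  | succ m _ ih =>
    rw [poch_succ]
    have h1 : 0 < poch a m := poch_pos (by linarith) m
    have h2 : (0 : ℝ) ≤ m := by positivity
    nlinarith

open Filter Topology in
theorem tendsto_ratio {i m : ℕ} (h : i < m) :
    Tendsto (fun j : ℕ => poch (3 / 2) (j + i) / poch (3 / 2) (j + m)) atTop (𝓝 0) := by
  have h1 : Tendsto (fun j : ℕ => (1 : ℝ) / (3 / 2 + ((j + i : ℕ) : ℝ))) atTop (𝓝 0) := by
    apply Tendsto.div_atTop tendsto_const_nhds
    apply tendsto_atTop_add_const_left
    exact tendsto_natCast_atTop_atTop.comp (tendsto_add_atTop_nat i)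
  refine squeeze_zero (fun j => ?_) (fun j => ?_) h1
  · exact div_nonneg (poch_pos (by norm_num) _).le (poch_pos (by norm_num) _).le
  · have h2 := poch_pos (a := 3 / 2) (by norm_num) (j + i)
    have h3 := poch_mono (3 / 2) (by norm_num) (show j + i + 1 ≤ j + m by omega)
    rw [poch_succ] at h3
    rw [div_le_div_iff₀ (lt_of_lt_of_le (by positivity) h3) (by positivity)]
    linarith

open Filter Topology in
theorem asym_pow (k : ℕ) : ∃ e : ℝ, e ≠ 0 ∧
    Tendsto (fun j : ℕ => (j.factorial : ℝ) * (LL ^ k) (v 0) j / poch (3 / 2) (j + k)) atTop (𝓝 e) := by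
  obtain ⟨e, he, h⟩ := pow_v k
  refine ⟨e k, he, ?_⟩
  have h1 : ∀ j : ℕ, (j.factorial : ℝ) * (LL ^ k) (v 0) j / poch (3 / 2) (j + k) =
      ∑ i ∈ range k, e i * (poch (3 / 2) (j + i) / poch (3 / 2) (j + k)) + e k := by
    intro j
    have hj : (j.factorial : ℝ) ≠ 0 := by positivity
    have hp := (poch_pos (a := 3 / 2) (by norm_num) (j + k)).ne'
    rw [h, Finset.sum_range_succ, Pi.add_apply, Finset.sum_apply]
    simp only [Pi.smul_apply, smul_eq_mul, v]
    rw [mul_add, add_div, Finset.mul_sum, Finset.sum_div]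
    congr 1
    · apply Finset.sum_congr rfl
      intro i _
      field_simp
    · field_simp
  simp_rw [h1]
  have h2 : Tendsto (fun j : ℕ => ∑ i ∈ range k, e i * (poch (3 / 2) (j + i) / poch (3 / 2) (j + k)))
      atTop (𝓝 (∑ i ∈ range k, e i * 0)) := by
    apply tendsto_finsetSum
    intro i hi
    exact (tendsto_ratio (Finset.mem_range.1 hi)).const_mul _
  have h3 := h2.add_const (e k)
  simpa using h3

open Filter Topology in
theorem asym_aeval (B : ℝ[X]) (hB : B ≠ 0) : ∃ e : ℝ, e ≠ 0 ∧
    Tendsto (fun j : ℕ => (j.factorial : ℝ) * (aeval LL B (v 0)) j / poch (3 / 2) (j + B.natDegree))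
      atTop (𝓝 e) := by
  obtain ⟨e, he, h⟩ := asym_pow B.natDegree
  refine ⟨B.leadingCoeff * e, mul_ne_zero (leadingCoeff_ne_zero.2 hB) he, ?_⟩
  have h1 : ∀ j : ℕ, (j.factorial : ℝ) * (aeval LL B (v 0)) j / poch (3 / 2) (j + B.natDegree) =
      ∑ k ∈ range B.natDegree, B.coeff k *
        (((j.factorial : ℝ) * (LL ^ k) (v 0) j / poch (3 / 2) (j + k)) *
          (poch (3 / 2) (j + k) / poch (3 / 2) (j + B.natDegree))) +
        B.leadingCoeff * ((j.factorial : ℝ) * (LL ^ B.natDegree) (v 0) j /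
          poch (3 / 2) (j + B.natDegree)) := by
    intro j
    rw [aeval_eq_sum_range, Finset.sum_range_succ, LinearMap.add_apply, Pi.add_apply,
      LinearMap.sum_apply, Finset.sum_apply]
    simp only [LinearMap.smul_apply, Pi.smul_apply, smul_eq_mul]
    rw [mul_add, add_div, Finset.mul_sum, Finset.sum_div]
    congr 1
    · apply Finset.sum_congr rfl
      intro k _
      have hp := (poch_pos (a := 3 / 2) (by norm_num) (j + k)).ne'
      have hp2 := (poch_pos (a := 3 / 2) (by norm_num) (j + B.natDegree)).ne'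
      field_simp
    · unfold leadingCoeff
      ring
  simp_rw [h1]
  have h2 : Tendsto (fun j : ℕ => ∑ k ∈ range B.natDegree, B.coeff k *
        (((j.factorial : ℝ) * (LL ^ k) (v 0) j / poch (3 / 2) (j + k)) *
          (poch (3 / 2) (j + k) / poch (3 / 2) (j + B.natDegree)))) atTop (𝓝 (∑ k ∈ range B.natDegree, 0)) := by
    apply tendsto_finsetSum
    intro k hk
    obtain ⟨e', _, h'⟩ := asym_pow k
    have := (h'.mul (tendsto_ratio (Finset.mem_range.1 hk))).const_mul (B.coeff k)
    rw [mul_zero, mul_zero] at this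
    exact this
  have h3 := h2.add (h.const_mul B.leadingCoeff)
  simpa using h3

open Filter Topology in
theorem no_asym (D : ℕ → ℝ) (m : ℕ) (e : ℝ) (he : e ≠ 0)
    (h : Tendsto (fun j : ℕ => D j / poch (3 / 2) (j + m)) atTop (𝓝 e))
    (hD : ∀ j, D j * D (j + 2) ≤ D (j + 1) ^ 2) : False := by
  set g : ℕ → ℝ := fun j => D j / poch (3 / 2) (j + m) with hg
  have hDg : ∀ j, D j = g j * poch (3 / 2) (j + m) := by
    intro j
    have hp := (poch_pos (a := 3 / 2) (by norm_num) (j + m)).ne'
    rw [hg]; field_simp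
  have h1 : Tendsto (fun j => g (j + 1)) atTop (𝓝 e) := (tendsto_add_atTop_iff_nat 1).2 h
  have h2 : Tendsto (fun j => g (j + 1) / g j) atTop (𝓝 (e / e)) := h1.div h he
  rw [div_self he] at h2
  have h3 : Tendsto (fun j : ℕ => (g (j + 1) / g j) * (3 / 2 + ((j + m : ℕ) : ℝ))) atTop atTop := by
    apply Tendsto.pos_mul_atTop one_pos h2
    apply tendsto_atTop_add_const_left
    exact tendsto_natCast_atTop_atTop.comp (tendsto_add_atTop_nat m)
  have h4 : ∀ᶠ j in atTop, 0 < e * g j := by
    have h5 : Tendsto (fun j => e * g j) atTop (𝓝 (e * e)) := h.const_mul e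
    exact h5.eventually (lt_mem_nhds (mul_self_pos.2 he))
  obtain ⟨J, hJ⟩ := eventually_atTop.1 h4
  have hpos : ∀ j, J ≤ j → 0 < e * D j := by
    intro j hj
    rw [hDg, ← mul_assoc]
    exact mul_pos (hJ j hj) (poch_pos (by norm_num) _)
  have hr : ∀ j, J ≤ j → D (j + 1) / D j = (g (j + 1) / g j) * (3 / 2 + ((j + m : ℕ) : ℝ)) := by
    intro j hj
    have hgj : g j ≠ 0 := by
      intro h0
      have := hJ j hj
      rw [h0, mul_zero] at this
      exact lt_irrefl _ this
    have hp := (poch_pos (a := 3 / 2) (by norm_num) (j + m)).ne'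
    rw [hDg, hDg]
    have e1 : j + 1 + m = j + m + 1 := by omega
    rw [e1, poch_succ]
    field_simp
  have hanti : ∀ j, J ≤ j → D (j + 1) / D j ≤ D (J + 1) / D J := by
    intro j hj
    induction j, hj using Nat.le_induction with
    | base => exact le_rfl
    | succ j hj ih =>
      refine le_trans ?_ ih
      have p0 := hpos j hj
      have p1 := hpos (j + 1) (by omega)
      have hd : 0 < D j * D (j + 1) := by
        have := mul_pos p0 p1
        have e2 : 0 < e ^ 2 := by positivity
        have : 0 < e ^ 2 * (D j * D (j + 1)) := by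
          calc (0 : ℝ) < e * D j * (e * D (j + 1)) := this
            _ = _ := by ring
        exact (pos_iff_pos_of_mul_pos this).1 e2
      have n0 : D j ≠ 0 := by rintro h0; rw [h0, zero_mul] at hd; exact lt_irrefl _ hd
      have n1 : D (j + 1) ≠ 0 := by rintro h0; rw [h0, mul_zero] at hd; exact lt_irrefl _ hd
      have e3 : D (j + 1 + 1) / D (j + 1) = (D j * D (j + 2)) / (D j * D (j + 1)) := by
        field_simp
      have e4 : D (j + 1) / D j = (D (j + 1) ^ 2) / (D j * D (j + 1)) := by
        field_simp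
      rw [e3, e4]
      exact div_le_div_of_nonneg_right (hD j) hd.le
  have h6 := (h3.eventually (eventually_gt_atTop (D (J + 1) / D J))).and (eventually_ge_atTop J)
  obtain ⟨j, hj1, hj2⟩ := h6.exists
  have := hanti j hj2
  rw [hr j hj2] at this
  exact absurd hj1 (not_lt.2 this)

theorem decomp (Q : ℝ[X]) : ∃ A B : ℝ[X],
    Q = A.comp (X ^ 2 + X) + (C 2 * X + 1) * B.comp (X ^ 2 + X) := by
  induction Q using Polynomial.induction_on with
  | C a => exact ⟨C a, 0, by simp⟩
  | add p q hp hq =>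
    obtain ⟨A, B, h⟩ := hp
    obtain ⟨A', B', h'⟩ := hq
    refine ⟨A + A', B + B', ?_⟩
    rw [h, h', add_comp, add_comp]; ring
  | monomial n a h =>
    obtain ⟨A, B, h⟩ := h
    refine ⟨-(C (1 / 2) * A) + C (1 / 2) * (4 * X + 1) * B, C (1 / 2) * A - C (1 / 2) * B, ?_⟩
    have h1 : (C a * X ^ (n + 1) : ℝ[X]) = (C a * X ^ n) * X := by ring
    rw [h1, h]
    simp only [add_comp, sub_comp, mul_comp, neg_comp, C_comp, X_comp, one_comp, ofNat_comp]
    have h2 : (C (1 / 2 : ℝ) : ℝ[X]) * 2 = 1 := by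
      rw [← C_ofNat, ← C_mul]; norm_num
    have h3 : (C (2 : ℝ) : ℝ[X]) = 2 := rfl
    rw [h3]
    generalize A.comp (X ^ 2 + X) = a1
    generalize B.comp (X ^ 2 + X) = b1
    generalize (C (1 / 2 : ℝ) : ℝ[X]) = c at *
    linear_combination (-(a1 * X + b1 * (2 * X ^ 2 + X))) * h2

theorem aeval_L_S (A : ℝ[X]) (k : ℕ) : aeval L A (S k) = A.eval ((k : ℝ) * (k + 1)) • S k := by
  apply Module.End.aeval_apply_of_hasEigenvector
  rw [Module.End.hasEigenvector_iff, Module.End.mem_eigenspace_iff]
  exact ⟨L_S k, S_ne k⟩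

/-- the multiplier operator in the variable `t` -/
noncomputable def T (A B : ℝ[X]) : Module.End ℝ ℝ[X] := aeval L A + Nop * aeval L B

theorem T_S (A B : ℝ[X]) (k : ℕ) : T A B (S k) =
    ((A.comp (X ^ 2 + X) + (C 2 * X + 1) * B.comp (X ^ 2 + X)).eval (k : ℝ)) • S k := by
  unfold T
  rw [LinearMap.add_apply, Module.End.mul_apply, aeval_L_S, aeval_L_S, map_smul, Nop_S, smul_smul,
    ← add_smul]
  congr 1
  simp only [eval_add, eval_mul, eval_comp, eval_C, eval_X, eval_pow, eval_one]
  have : (k : ℝ) * (k + 1) = k ^ 2 + k := by ring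
  rw [this]; ring

theorem Nop_comm_aeval (B f : ℝ[X]) : Nop (aeval L B f) = aeval L B (Nop f) := by
  have h : Commute Nop L := by
    change Nop ∘ₗ L = L ∘ₗ Nop
    exact comm.symm
  have h1 : ∀ k : ℕ, Nop ((L ^ k) f) = (L ^ k) (Nop f) := by
    intro k
    have := congrArg (fun U : Module.End ℝ ℝ[X] => U f) (h.pow_right k).eq
    simpa [Module.End.mul_apply] using this
  rw [aeval_eq_sum_range, LinearMap.sum_apply, LinearMap.sum_apply, map_sum]
  apply Finset.sum_congr rfl
  intro k _
  rw [LinearMap.smul_apply, LinearMap.smul_apply, map_smul, h1]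

theorem T_coeff (A B : ℝ[X]) (n j : ℕ) (h : j + A.natDegree < n) :
    (T A B (X ^ n)).coeff j = aeval LL B (b n) j := by
  unfold T
  rw [LinearMap.add_apply, Module.End.mul_apply, coeff_add, aeval_low A n j h, zero_add,
    Nop_comm_aeval, aeval_coeff]
  have h1 : (Nop (X ^ n)).coeff = b n := by
    ext i
    rw [← monomial_one_right_eq_X_pow, Nop_monomial, Nt_coeff]
  rw [h1]

open Filter Topology in
theorem key (A B : ℝ[X]) (hB : B ≠ 0) (hT : ∀ n : ℕ, OnlyReal (T A B (X ^ n))) : False := by
  obtain ⟨e, he, h⟩ := asym_aeval B hB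
  set c : ℕ → ℝ := aeval LL B (fun j => -(1 / 2) * v 0 j) with hc
  have hc2 : c = (-(1 / 2) : ℝ) • aeval LL B (v 0) := by
    rw [hc, ← map_smul]; rfl
  have hlim : ∀ j, Tendsto (fun n : ℕ => (n : ℝ) * (T A B (X ^ n)).coeff j) atTop (𝓝 (c j)) := by
    intro j
    have h1 := tendsto_aeval B (fun n j => (n : ℝ) * b n j) (fun j => -(1 / 2) * v 0 j)
      tendsto_b j
    refine h1.congr' ?_
    filter_upwards [eventually_gt_atTop (j + A.natDegree)] with n hn
    rw [T_coeff A B n j hn]
    have : (fun j => (n : ℝ) * b n j) = (n : ℝ) • b n := by ext j; rfl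
    rw [this, map_smul, Pi.smul_apply, smul_eq_mul]
  apply no_asym (fun j => (j.factorial : ℝ) * c j) B.natDegree (-(1 / 2) * e)
    (mul_ne_zero (by norm_num) he)
  · have h2 := h.const_mul (-(1 / 2) : ℝ)
    refine h2.congr (fun j => ?_)
    rw [hc2, Pi.smul_apply, smul_eq_mul]
    ring
  · intro j
    have t0 := (hlim j).const_mul (j.factorial : ℝ)
    have t1 := (hlim (j + 1)).const_mul ((j + 1).factorial : ℝ)
    have t2 := (hlim (j + 2)).const_mul ((j + 2).factorial : ℝ)
    refine le_of_tendsto_of_tendsto' (t0.mul t2) (t1.pow 2) (fun n => ?_)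
    have := laguerre_coeff _ (hT n) j
    have hn : (0 : ℝ) ≤ (n : ℝ) ^ 2 := by positivity
    nlinarith [mul_le_mul_of_nonneg_left this hn]

/-- Legendre multiplier sequences -/
def LMS (γ : ℕ → ℝ) : Prop := ∀ (n : ℕ) (a : ℕ → ℝ), OnlyReal (∑ k ∈ range n, a k • P k) →
  OnlyReal (∑ k ∈ range n, (γ k * a k) • P k)

theorem comp_sum (n : ℕ) (a : ℕ → ℝ) : (∑ k ∈ range n, a k • P k).comp (C 2 * X - 1) =
    ∑ k ∈ range n, a k • S k := by
  rw [Polynomial.sum_comp]
  apply Finset.sum_congr rfl
  intro k _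
  rw [smul_comp]; rfl

theorem aeval_lin (p : ℝ[X]) (w : ℂ) : aeval w (p.comp (C 2 * X - 1)) = aeval (2 * w - 1) p := by
  rw [aeval_comp]
  simp

theorem main (Q : ℝ[X]) (hQ : LMS (fun k => Q.eval (k : ℝ))) : ∃ A : ℝ[X], Q = A.comp (X ^ 2 + X) := by
  obtain ⟨A, B, hAB⟩ := decomp Q
  by_cases hB : B = 0
  · exact ⟨A, by rw [hAB, hB]; simp⟩
  · exfalso
    apply key A B hB
    intro n
    obtain ⟨a, ha⟩ := exists_expansion n (X ^ n) (by rw [natDegree_X_pow])
    have h1 : OnlyReal (∑ k ∈ range (n + 1), a k • P k) := by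
      right
      intro z hz
      have h2 : aeval ((z + 1) / 2) ((X : ℝ[X]) ^ n) = 0 := by
        rw [ha, ← comp_sum, aeval_lin]
        have : 2 * ((z + 1) / 2) - 1 = z := by ring
        rw [this]; exact hz
      rw [map_pow, aeval_X] at h2
      have h4 : (z + 1) / 2 = 0 := eq_zero_of_pow_eq_zero h2
      have h5 : z = -1 := by linear_combination 2 * h4
      rw [h5]; simp
    have h6 := hQ (n + 1) a h1
    have h7 : T A B (X ^ n) = (∑ k ∈ range (n + 1), (Q.eval (k : ℝ) * a k) • P k).comp (C 2 * X - 1) := by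
      rw [comp_sum, ha, map_sum]
      apply Finset.sum_congr rfl
      intro k _
      rw [map_smul, T_S, ← hAB, smul_smul, mul_comm]
    rw [h7]
    rcases h6 with h6 | h6
    · left; rw [h6, zero_comp]
    · right
      intro w hw
      rw [aeval_lin] at hw
      have := h6 _ hw
      have h8 : (2 * w - 1).im = 2 * w.im := by simp
      rw [h8] at this
      linarith

end Pool.Agent.U136.Leg
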