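import Mathlib

set_option autoImplicit false

namespace Pool.Agent.U136.Nor

open PowerSeries Finset

/-- `(e^t - 1)/t` -/
noncomputable def E : PowerSeries ℝ := PowerSeries.mk fun k => 1 / ((k + 1).factorial : ℝ)

/-- `t/(e^t - 1)` -/
noncomputable def G : PowerSeries ℝ := E⁻¹

/-- `B_m^{(a)}(x)` -/
noncomputable def nor (a m : ℕ) (x : ℝ) : ℝ :=
  m.factorial * PowerSeries.coeff m (G ^ a * PowerSeries.rescale x (PowerSeries.exp ℝ))

theorem X_mul_E : (X : PowerSeries ℝ) * E = PowerSeries.exp ℝ - 1 := by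
  ext n
  cases n with
  | zero => simp
  | succ n =>
    rw [PowerSeries.coeff_succ_X_mul]
    simp [E, PowerSeries.coeff_exp, PowerSeries.coeff_one]

theorem E_mul_G : E * G = 1 := by
  unfold G
  apply PowerSeries.mul_inv_cancel
  simp [E]

theorem G_mul : G * (PowerSeries.exp ℝ - 1) = X := by
  rw [← X_mul_E, mul_comm, mul_assoc, E_mul_G, mul_one]

theorem dG : (X : PowerSeries ℝ) * d⁄dX ℝ G = G - G ^ 2 * PowerSeries.exp ℝ := by
  have h := congrArg (d⁄dX ℝ) G_mul
  rw [Derivation.leibniz] at h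
  simp only [map_sub, PowerSeries.derivative_exp, smul_eq_mul, PowerSeries.derivative_X,
    Derivation.map_one_eq_zero, sub_zero] at h
  calc (X : PowerSeries ℝ) * d⁄dX ℝ G = G * (PowerSeries.exp ℝ - 1) * d⁄dX ℝ G := by rw [G_mul]
    _ = G * ((PowerSeries.exp ℝ - 1) * d⁄dX ℝ G) := by ring
    _ = G * (1 - G * PowerSeries.exp ℝ) := by
      congr 1; linear_combination h
    _ = _ := by ring

theorem coeff_X_mul_d (f : PowerSeries ℝ) (n : ℕ) :
    PowerSeries.coeff n (X * d⁄dX ℝ f) = n * PowerSeries.coeff n f := by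
  cases n with
  | zero => simp
  | succ n => rw [PowerSeries.coeff_succ_X_mul, PowerSeries.coeff_derivative]; push_cast; ring

theorem coeff_res (n : ℕ) : PowerSeries.coeff (n + 1) (G ^ (n + 2) * PowerSeries.exp ℝ) = 0 := by
  have h : (X : PowerSeries ℝ) * d⁄dX ℝ (G ^ (n + 1)) =
      ((n + 1 : ℕ) : PowerSeries ℝ) * (G ^ (n + 1) - G ^ (n + 2) * PowerSeries.exp ℝ) := by
    rw [Derivation.leibniz_pow]
    simp only [Nat.add_sub_cancel, nsmul_eq_mul, smul_eq_mul]
    calc (X : PowerSeries ℝ) * (((n + 1 : ℕ) : PowerSeries ℝ) * (G ^ n * d⁄dX ℝ G))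
        = ((n + 1 : ℕ) : PowerSeries ℝ) * (G ^ n * (X * d⁄dX ℝ G)) := by ring
      _ = _ := by rw [dG]; ring
  have h2 := congrArg (PowerSeries.coeff (n + 1)) h
  rw [coeff_X_mul_d] at h2
  have h3 : PowerSeries.coeff (n + 1) (((n + 1 : ℕ) : PowerSeries ℝ) * (G ^ (n + 1) - G ^ (n + 2) * PowerSeries.exp ℝ))
      = ((n + 1 : ℕ) : ℝ) * (PowerSeries.coeff (n + 1) (G ^ (n + 1)) -
        PowerSeries.coeff (n + 1) (G ^ (n + 2) * PowerSeries.exp ℝ)) := by
    rw [← nsmul_eq_mul, map_nsmul, nsmul_eq_mul, map_sub]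
  rw [h3] at h2
  have h4 : ((n + 1 : ℕ) : ℝ) ≠ 0 := by positivity
  have h5 := mul_left_cancel₀ h4 h2
  linarith

theorem resc_one : PowerSeries.rescale (1 : ℝ) (PowerSeries.exp ℝ) = PowerSeries.exp ℝ := by
  rw [PowerSeries.rescale_one]; rfl

theorem nor_one (n : ℕ) : nor (n + 2) (n + 1) 1 = 0 := by
  unfold nor
  rw [resc_one, coeff_res, mul_zero]

theorem nor_diff (a m : ℕ) (x : ℝ) :
    nor (a + 1) (m + 1) (x + 1) - nor (a + 1) (m + 1) x = (m + 1) * nor a m x := by
  unfold nor
  rw [← mul_sub, ← map_sub, ← mul_sub]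
  have h : PowerSeries.rescale (x + 1) (PowerSeries.exp ℝ) =
      PowerSeries.rescale x (PowerSeries.exp ℝ) * PowerSeries.exp ℝ := by
    rw [← PowerSeries.exp_mul_exp_eq_exp_add, resc_one]
  rw [h]
  have h2 : G ^ (a + 1) * (PowerSeries.rescale x (PowerSeries.exp ℝ) * PowerSeries.exp ℝ -
      PowerSeries.rescale x (PowerSeries.exp ℝ)) =
      X * (G ^ a * PowerSeries.rescale x (PowerSeries.exp ℝ)) := by
    calc _ = (G * (PowerSeries.exp ℝ - 1)) * (G ^ a * PowerSeries.rescale x (PowerSeries.exp ℝ)) := by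
          ring
      _ = _ := by rw [G_mul]
  rw [h2, PowerSeries.coeff_succ_X_mul, Nat.factorial_succ]
  push_cast
  ring

/-- the polynomial `B_m^{(a)}` -/
noncomputable def norP (a m : ℕ) : Polynomial ℝ :=
  ∑ j ∈ range (m + 1), Polynomial.C ((m.factorial : ℝ) * PowerSeries.coeff j (G ^ a) / ((m - j).factorial : ℝ)) *
    Polynomial.X ^ (m - j)

theorem eval_norP (a m : ℕ) (x : ℝ) : (norP a m).eval x = nor a m x := by
  unfold norP nor
  rw [Polynomial.eval_finsetSum, PowerSeries.coeff_mul, Finset.Nat.sum_antidiagonal_eq_sum_range_succ_mk,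
    Finset.mul_sum]
  apply Finset.sum_congr rfl
  intro j hj
  simp only [Polynomial.eval_mul, Polynomial.eval_C, Polynomial.eval_pow, Polynomial.eval_X,
    PowerSeries.coeff_rescale, PowerSeries.coeff_exp]
  simp
  ring

theorem coeff_norP (a m : ℕ) {i : ℕ} (hi : i ≤ m) : (norP a m).coeff i =
    (m.factorial : ℝ) * PowerSeries.coeff (m - i) (G ^ a) / (i.factorial : ℝ) := by
  unfold norP
  rw [Polynomial.finsetSum_coeff]
  rw [Finset.sum_eq_single (m - i)]
  · rw [Polynomial.coeff_C_mul, Polynomial.coeff_X_pow]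
    have : m - (m - i) = i := by omega
    simp [this]
  · intro j hj hne
    rw [Polynomial.coeff_C_mul, Polynomial.coeff_X_pow]
    rw [Finset.mem_range] at hj
    have : i ≠ m - j := by omega
    simp [this]
  · intro h
    exfalso; apply h; rw [Finset.mem_range]; omega

theorem coeff_norP_gt (a m : ℕ) {i : ℕ} (hi : m < i) : (norP a m).coeff i = 0 := by
  unfold norP
  rw [Polynomial.finsetSum_coeff]
  apply Finset.sum_eq_zero
  intro j hj
  rw [Polynomial.coeff_C_mul, Polynomial.coeff_X_pow]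
  have : i ≠ m - j := by omega
  simp [this]

theorem G0 (a : ℕ) : PowerSeries.coeff 0 (G ^ a) = 1 := by
  have h : PowerSeries.constantCoeff (E * G) = 1 := by rw [E_mul_G]; simp
  rw [map_mul] at h
  have h2 : PowerSeries.constantCoeff E = (1 : ℝ) := by simp [E]
  rw [h2, one_mul] at h
  rw [PowerSeries.coeff_zero_eq_constantCoeff, map_pow, h, one_pow]

theorem coeff_top (a m : ℕ) : (norP a m).coeff m = 1 := by
  rw [coeff_norP a m le_rfl, Nat.sub_self, G0, mul_one]
  exact div_self (by positivity)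

theorem deg_norP (a m : ℕ) : (norP a m).natDegree = m := by
  apply le_antisymm
  · rw [Polynomial.natDegree_le_iff_coeff_eq_zero]
    intro i hi
    exact coeff_norP_gt a m hi
  · apply Polynomial.le_natDegree_of_ne_zero
    rw [coeff_top]; exact one_ne_zero

theorem monic_norP (a m : ℕ) : (norP a m).Monic := by
  unfold Polynomial.Monic Polynomial.leadingCoeff
  rw [deg_norP, coeff_top]

theorem der_norP (a m : ℕ) : Polynomial.derivative (norP a (m + 1)) = Polynomial.C ((m : ℝ) + 1) * norP a m := by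
  ext i
  rw [Polynomial.coeff_derivative, Polynomial.coeff_C_mul]
  by_cases hi : i ≤ m
  · rw [coeff_norP a (m + 1) (by omega), coeff_norP a m hi]
    have : m + 1 - (i + 1) = m - i := by omega
    rw [this, Nat.factorial_succ, Nat.factorial_succ]
    have h1 : (i.factorial : ℝ) ≠ 0 := by positivity
    have h2 : ((i : ℝ) + 1) ≠ 0 := by positivity
    push_cast
    field_simp
  · rw [coeff_norP_gt a (m + 1) (by omega), coeff_norP_gt a m (by omega)]
    simp

/-- `B_n^{(n+1)}(x) = (x-1)...(x-n)` -/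
theorem nor_prod (n : ℕ) : norP (n + 1) n = ∏ i ∈ range n, (Polynomial.X - Polynomial.C ((i : ℝ) + 1)) := by
  induction n with
  | zero =>
    ext i
    rcases Nat.eq_zero_or_pos i with h | h
    · subst h; rw [coeff_top]; simp
    · rw [coeff_norP_gt _ _ h]; simp [Polynomial.coeff_one]; omega
  | succ n ih =>
    have key : ∀ k : ℕ, (norP (n + 1 + 1) (n + 1)).eval ((k : ℝ) + 1) =
        (∏ i ∈ range (n + 1), (Polynomial.X - Polynomial.C ((i : ℝ) + 1))).eval ((k : ℝ) + 1) := by
      intro k
      induction k with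
      | zero =>
        rw [eval_norP]
        simp only [Nat.cast_zero, zero_add]
        rw [nor_one, Polynomial.eval_prod]
        symm
        apply Finset.prod_eq_zero (i := 0) (by simp)
        simp
      | succ k ihk =>
        rw [eval_norP] at ihk ⊢
        have h1 := nor_diff (n + 1) n ((k : ℝ) + 1)
        have h2 : nor (n + 1 + 1) (n + 1) ((k : ℝ) + 1 + 1) =
          nor (n + 1 + 1) (n + 1) ((k : ℝ) + 1) + (n + 1) * nor (n + 1) n ((k : ℝ) + 1) := by linarith
        push_cast
        rw [h2, ihk, ← eval_norP, ih, Polynomial.eval_prod, Polynomial.eval_prod, Polynomial.eval_prod]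
        simp only [Polynomial.eval_sub, Polynomial.eval_X, Polynomial.eval_C]
        rw [Finset.prod_range_succ (fun i : ℕ => (k : ℝ) + 1 - ((i : ℝ) + 1)),
          Finset.prod_range_succ' (fun i : ℕ => (k : ℝ) + 1 + 1 - ((i : ℝ) + 1))]
        have h3 : ∏ i ∈ range n, ((k : ℝ) + 1 + 1 - (((i + 1 : ℕ) : ℝ) + 1)) =
            ∏ i ∈ range n, ((k : ℝ) + 1 - ((i : ℝ) + 1)) := by
          apply Finset.prod_congr rfl
          intro i _
          push_cast; ring
        rw [h3]
        push_cast
        ring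
    apply Polynomial.eq_of_infinite_eval_eq
    apply Set.infinite_of_injective_forall_mem (f := fun k : ℕ => (k : ℝ) + 1)
    · intro a b h
      simpa using h
    · intro k
      exact key k

theorem sign_prod (n k : ℕ) (hk : k ≤ n) (ξ : ℝ) (h1 : (k : ℝ) < ξ) (h2 : ξ < k + 1) :
    0 < (-1 : ℝ) ^ (n - k) * ∏ i ∈ range n, (ξ - ((i : ℝ) + 1)) := by
  rw [← Finset.prod_range_mul_prod_Ico _ hk]
  have h3 : 0 < ∏ i ∈ range k, (ξ - ((i : ℝ) + 1)) := by
    apply Finset.prod_pos
    intro i hi
    rw [Finset.mem_range] at hi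
    have : (i : ℝ) + 1 ≤ k := by exact_mod_cast hi
    linarith
  have h4 : (-1 : ℝ) ^ (n - k) * ∏ i ∈ Finset.Ico k n, (ξ - ((i : ℝ) + 1)) =
      ∏ i ∈ Finset.Ico k n, (((i : ℝ) + 1) - ξ) := by
    have hc : n - k = (Finset.Ico k n).card := by simp
    rw [hc, ← Finset.prod_const, ← Finset.prod_mul_distrib]
    apply Finset.prod_congr rfl
    intro i _
    ring
  have h5 : 0 < ∏ i ∈ Finset.Ico k n, (((i : ℝ) + 1) - ξ) := by
    apply Finset.prod_pos
    intro i hi
    rw [Finset.mem_Ico] at hi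
    have : (k : ℝ) ≤ i := by exact_mod_cast hi.1
    linarith
  calc (0 : ℝ) < (∏ i ∈ range k, (ξ - ((i : ℝ) + 1))) * ∏ i ∈ Finset.Ico k n, (((i : ℝ) + 1) - ξ) :=
        mul_pos h3 h5
    _ = _ := by rw [← h4]; ring

theorem sign_nor (n k : ℕ) (hk : k ≤ n) : 0 < (-1 : ℝ) ^ (n - k) * (norP n n).eval (k : ℝ) := by
  obtain ⟨ξ, hξ, h⟩ := exists_hasDerivAt_eq_slope (fun x => (norP (n + 1) (n + 1)).eval x)
    (fun x => (Polynomial.derivative (norP (n + 1) (n + 1))).eval x) (a := (k : ℝ)) (b := (k : ℝ) + 1)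
    (by linarith) (Polynomial.continuous _).continuousOn
    (fun x _ => Polynomial.hasDerivAt _ x)
  have h1 := sign_prod n k hk ξ hξ.1 hξ.2
  have h2 := nor_diff n n (k : ℝ)
  simp only [eval_norP] at h
  rw [h2, der_norP, nor_prod, Polynomial.eval_mul, Polynomial.eval_C, Polynomial.eval_prod] at h
  simp only [Polynomial.eval_sub, Polynomial.eval_X, Polynomial.eval_C] at h
  have h3 : nor n n (k : ℝ) = ∏ i ∈ range n, (ξ - ((i : ℝ) + 1)) := by
    have h4 : ((n : ℝ) + 1) ≠ 0 := by positivity
    apply mul_left_cancel₀ h4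
    rw [h]
    field_simp
    ring
  rw [eval_norP, h3]
  exact h1

theorem exists_root (n i : ℕ) (hi : i < n) : ∃ r : ℝ, (i : ℝ) < r ∧ r < i + 1 ∧ (norP n n).eval r = 0 := by
  have h1 := sign_nor n i hi.le
  have h2 := sign_nor n (i + 1) hi
  have h3 : (-1 : ℝ) ^ (n - i) = - (-1 : ℝ) ^ (n - (i + 1)) := by
    have : n - i = (n - (i + 1)) + 1 := by omega
    rw [this, pow_succ]; ring
  have hcont : ContinuousOn (fun x => (-1 : ℝ) ^ (n - i) * (norP n n).eval x) (Set.Icc (i : ℝ) (i + 1)) :=
    (continuous_const.mul (Polynomial.continuous _)).continuousOn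
  have hiv := intermediate_value_Ioo' (a := (i : ℝ)) (b := i + 1) (by linarith) hcont
  have hmem : (0 : ℝ) ∈ Set.Ioo ((-1 : ℝ) ^ (n - i) * (norP n n).eval ((i : ℝ) + 1))
      ((-1 : ℝ) ^ (n - i) * (norP n n).eval (i : ℝ)) := by
    constructor
    · rw [h3]
      push_cast at h2
      linarith
    · exact h1
  obtain ⟨r, hr, hr0⟩ := hiv hmem
  refine ⟨r, hr.1, hr.2, ?_⟩
  have hne : (-1 : ℝ) ^ (n - i) ≠ 0 := by positivity
  simpa [hne] using hr0

theorem exists_factor (n : ℕ) : ∃ r : ℕ → ℝ, (∀ i < n, (i : ℝ) < r i ∧ r i < i + 1) ∧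
    norP n n = ∏ i ∈ range n, (Polynomial.X - Polynomial.C (r i)) := by
  have h : ∀ i : ℕ, ∃ r : ℝ, i < n → ((i : ℝ) < r ∧ r < i + 1 ∧ (norP n n).eval r = 0) := by
    intro i
    by_cases hi : i < n
    · obtain ⟨r, hr⟩ := exists_root n i hi
      exact ⟨r, fun _ => hr⟩
    · exact ⟨0, fun h => absurd h hi⟩
  choose r hr using h
  refine ⟨r, fun i hi => ⟨(hr i hi).1, (hr i hi).2.1⟩, ?_⟩
  have hmon : (∏ i ∈ range n, (Polynomial.X - Polynomial.C (r i))).Monic :=
    Polynomial.monic_prod_of_monic _ _ (fun i _ => Polynomial.monic_X_sub_C _)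
  have hdeg : (∏ i ∈ range n, (Polynomial.X - Polynomial.C (r i))).natDegree = n := by
    rw [Polynomial.natDegree_prod_of_monic _ _ (fun i _ => Polynomial.monic_X_sub_C _)]
    simp
  have hd1 : (norP n n).degree = n := by
    rw [Polynomial.degree_eq_natDegree (monic_norP n n).ne_zero, deg_norP]
  have hd2 : (∏ i ∈ range n, (Polynomial.X - Polynomial.C (r i))).degree = (n : WithBot ℕ) := by
    rw [Polynomial.degree_eq_natDegree hmon.ne_zero, hdeg]
  have hlt : (norP n n - ∏ i ∈ range n, (Polynomial.X - Polynomial.C (r i))).degree < (n : WithBot ℕ) := by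
    rw [← hd1]
    exact Polynomial.degree_sub_lt_left (by rw [hd1, hd2]) (monic_norP n n).ne_zero
          (by rw [(monic_norP n n).leadingCoeff, hmon.leadingCoeff])
  refine Polynomial.eq_of_degree_sub_lt_of_eval_index_eq (range n) (v := r) ?_ ?_ ?_
  · intro i hi j hj hij
    simp only [Finset.coe_range, Set.mem_Iio] at hi hj
    have h1 := hr i hi
    have h2 := hr j hj
    rw [hij] at h1
    have h3 : (i : ℝ) < j + 1 := by linarith [h1.1, h2.2.1]
    have h4 : (j : ℝ) < i + 1 := by linarith [h2.1, h1.2.1]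
    have h5 : i < j + 1 := by exact_mod_cast h3
    have h6 : j < i + 1 := by exact_mod_cast h4
    omega
  · rw [Finset.card_range]
    exact hlt
  · intro i hi
    rw [Finset.mem_range] at hi
    rw [(hr i hi).2.2, Polynomial.eval_prod]
    symm
    apply Finset.prod_eq_zero (i := i) (Finset.mem_range.2 hi)
    simp

theorem taylor_coeff (n j : ℕ) (hj : j ≤ n) (x : ℝ) :
    (Polynomial.taylor x (norP n n)).coeff j = (n.choose j : ℝ) * nor n (n - j) x := by
  rw [Polynomial.taylor_coeff, ← eval_norP]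
  have h : Polynomial.hasseDeriv j (norP n n) = Polynomial.C (n.choose j : ℝ) * norP n (n - j) := by
    ext i
    rw [Polynomial.hasseDeriv_coeff, Polynomial.coeff_C_mul]
    by_cases hi : i ≤ n - j
    · rw [coeff_norP _ _ hi, coeff_norP n n (by omega)]
      have h1 : n - (i + j) = n - j - i := by omega
      rw [h1]
      have h2 : (((i + j).choose j : ℕ) : ℝ) * (i.factorial * j.factorial) = (i + j).factorial := by
        have := Nat.add_choose_mul_factorial_mul_factorial i j
        rw [← this]; push_cast; ring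
      have h5 : ((n.choose j : ℕ) : ℝ) * (j.factorial * (n - j).factorial) = n.factorial := by
        have := Nat.choose_mul_factorial_mul_factorial hj
        rw [← this]; push_cast; ring
      rw [← h2, ← h5]
      have e1 : (i.factorial : ℝ) ≠ 0 := by positivity
      have e2 : (j.factorial : ℝ) ≠ 0 := by positivity
      have e3 : (((i + j).choose j : ℕ) : ℝ) ≠ 0 := by
        have : 0 < (i + j).choose j := Nat.choose_pos (by omega)
        positivity
      field_simp
    · rw [coeff_norP_gt _ _ (by omega), coeff_norP_gt _ _ (by omega)]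
      simp
  rw [h]
  simp

theorem S_pos (n : ℕ) (s : ℕ → ℝ) (h0 : ∀ i < n, 0 ≤ s i)
    (h1 : ∀ i < n, ∀ j < n, s i = 0 → s j = 0 → i = j) (m : ℕ) (hm1 : 1 ≤ m) (hm : m ≤ n) :
    0 < (∏ i ∈ range n, (Polynomial.X + Polynomial.C (s i))).coeff m := by
  rw [Finset.prod_X_add_C_coeff _ _ (by simpa using hm), Finset.card_range]
  apply Finset.sum_pos'
  · intro t ht
    apply Finset.prod_nonneg
    intro i hi
    exact h0 i (Finset.mem_range.1 ((Finset.mem_powersetCard.1 ht).1 hi))
  · have hcard : n - m ≤ ((range n).filter (fun i => s i ≠ 0)).card := by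
      have e1 : ((range n).filter (fun i => s i = 0)).card ≤ 1 := by
        rw [Finset.card_le_one]
        intro a ha b hb
        rw [Finset.mem_filter, Finset.mem_range] at ha hb
        exact h1 a ha.1 b hb.1 ha.2 hb.2
      have e2 := Finset.card_filter_add_card_filter_not (s := range n) (fun i => s i = 0)
      rw [Finset.card_range] at e2
      have e3 : ((range n).filter (fun i => ¬ s i = 0)).card = ((range n).filter (fun i => s i ≠ 0)).card := rfl
      omega
    obtain ⟨t, ht, htc⟩ := Finset.exists_subset_card_eq hcard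
    refine ⟨t, ?_, ?_⟩
    · rw [Finset.mem_powersetCard]
      exact ⟨fun i hi => (Finset.mem_filter.1 (ht hi)).1, htc⟩
    · apply Finset.prod_pos
      intro i hi
      have h2 := Finset.mem_filter.1 (ht hi)
      exact lt_of_le_of_ne (h0 i (Finset.mem_range.1 h2.1)) (Ne.symm h2.2)

open Polynomial in
/-- the main identity -/
theorem main_coeff (n : ℕ) (x : ℝ) : ∃ s : ℕ → ℝ, (∀ i < n, 0 ≤ s i) ∧
    (∀ i < n, ∀ j < n, s i = 0 → s j = 0 → i = j) ∧
    ∀ m : ℕ, ∑ j ∈ range (2 * m + 1), (-1 : ℝ) ^ j * (Polynomial.taylor x (norP n n)).coeff j *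
      (Polynomial.taylor x (norP n n)).coeff (2 * m - j) =
      (-1 : ℝ) ^ m * (∏ i ∈ range n, (Polynomial.X + Polynomial.C (s i))).coeff m := by
  obtain ⟨r, hr, hf⟩ := exists_factor n
  refine ⟨fun i => (x - r i) ^ 2, fun i _ => sq_nonneg _, ?_, ?_⟩
  · intro i hi j hj h1 h2
    have e1 : x - r i = 0 := by simpa using h1
    have e2 : x - r j = 0 := by simpa using h2
    have e3 := hr i hi
    have e4 := hr j hj
    have h3 : (i : ℝ) < j + 1 := by linarith [e3.1, e4.2]
    have h4 : (j : ℝ) < i + 1 := by linarith [e4.1, e3.2]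
    have h5 : i < j + 1 := by exact_mod_cast h3
    have h6 : j < i + 1 := by exact_mod_cast h4
    omega
  · intro m
    have ht : Polynomial.taylor x (norP n n) =
        ∏ i ∈ range n, (Polynomial.X + Polynomial.C (x - r i)) := by
      rw [hf, Polynomial.taylor_apply, Polynomial.prod_comp]
      apply Finset.prod_congr rfl
      intro i _
      simp only [Polynomial.sub_comp, Polynomial.X_comp, Polynomial.C_comp, Polynomial.C_sub]
      ring
    have h1 : (Polynomial.taylor x (norP n n)).comp (-Polynomial.X) * Polynomial.taylor x (norP n n) =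
        Polynomial.expand ℝ 2 (∏ i ∈ range n, (Polynomial.C ((x - r i) ^ 2) - Polynomial.X)) := by
      rw [ht, Polynomial.prod_comp, ← Finset.prod_mul_distrib, map_prod]
      apply Finset.prod_congr rfl
      intro i _
      generalize x - r i = c
      rw [map_sub (Polynomial.expand ℝ 2), Polynomial.expand_C, Polynomial.expand_X, Polynomial.C_pow]
      simp only [Polynomial.add_comp, Polynomial.X_comp, Polynomial.C_comp]
      ring
    have h2 : ∏ i ∈ range n, (Polynomial.C ((x - r i) ^ 2) - Polynomial.X) =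
        (∏ i ∈ range n, (Polynomial.X + Polynomial.C ((x - r i) ^ 2))).comp (-Polynomial.X) := by
      rw [Polynomial.prod_comp]
      apply Finset.prod_congr rfl
      intro i _
      simp only [Polynomial.add_comp, Polynomial.X_comp, Polynomial.C_comp]
      ring
    have h3 : ∀ (p : Polynomial ℝ) (j : ℕ), (p.comp (-Polynomial.X)).coeff j = (-1) ^ j * p.coeff j := by
      intro p j
      have h8 : (-Polynomial.X : Polynomial ℝ) = Polynomial.C (-1) * Polynomial.X := by simp
      rw [h8, Polynomial.comp_C_mul_X_coeff]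
      ring
    have h4 := congrArg (fun p => Polynomial.coeff p (2 * m)) h1
    simp only [Polynomial.coeff_mul, Finset.Nat.sum_antidiagonal_eq_sum_range_succ_mk] at h4
    rw [mul_comm 2 m, Polynomial.coeff_expand_mul (by norm_num), h2, h3] at h4
    rw [← h4, mul_comm 2 m]
    apply Finset.sum_congr rfl
    intro j _
    rw [h3]

/-- `α_{n,k}(x)` -/
noncomputable def alpha (n k : ℕ) (x : ℝ) : ℝ :=
  (-1) ^ k * ∑ j ∈ range (2 * k + 1), (-1) ^ j * (n.choose j : ℝ) * (n.choose (2 * k - j) : ℝ) *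
    nor n (n - j) x * nor n (n - (2 * k - j)) x

/-- `β_{n,k}(x)` -/
noncomputable def beta (n k : ℕ) (x : ℝ) : ℝ :=
  (-1) ^ k * ∑ j ∈ range (2 * k + 1), (-1) ^ j * (n.choose j : ℝ) * (n.choose (2 * k - j) : ℝ) *
    nor n j x * nor n (2 * k - j) x

theorem alpha_pos (n k : ℕ) (h1 : 1 ≤ 2 * k) (h2 : 2 * k ≤ n) (x : ℝ) : 0 < alpha n k x := by
  obtain ⟨s, h0, hs, hm⟩ := main_coeff n x
  have h3 := S_pos n s h0 hs k (by omega) (by omega)
  have h4 := hm k
  unfold alpha
  have h5 : ∑ j ∈ range (2 * k + 1), (-1 : ℝ) ^ j * (n.choose j : ℝ) * (n.choose (2 * k - j) : ℝ) *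
    nor n (n - j) x * nor n (n - (2 * k - j)) x = ∑ j ∈ range (2 * k + 1), (-1 : ℝ) ^ j *
      (Polynomial.taylor x (norP n n)).coeff j *
      (Polynomial.taylor x (norP n n)).coeff (2 * k - j) := by
    apply Finset.sum_congr rfl
    intro j hj
    rw [Finset.mem_range] at hj
    rw [taylor_coeff n j (by omega), taylor_coeff n (2 * k - j) (by omega)]
    ring
  rw [h5, h4, ← mul_assoc, ← mul_pow]
  simpa using h3

theorem beta_pos (n k : ℕ) (h2 : 2 * k < n) (x : ℝ) : 0 < beta n k x := by
  obtain ⟨s, h0, hs, hm⟩ := main_coeff n x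
  have h3 := S_pos n s h0 hs (n - k) (by omega) (by omega)
  have h4 := hm (n - k)
  set p := Polynomial.taylor x (norP n n) with hp
  have hz : ∀ i, n < i → p.coeff i = 0 := by
    intro i hi
    apply Polynomial.coeff_eq_zero_of_natDegree_lt
    rw [hp, Polynomial.natDegree_taylor, deg_norP]; exact hi
  unfold beta
  have h5 : ∑ j ∈ range (2 * k + 1), (-1 : ℝ) ^ j * (n.choose j : ℝ) * (n.choose (2 * k - j) : ℝ) *
    nor n j x * nor n (2 * k - j) x = (-1) ^ n * ∑ j ∈ range (2 * (n - k) + 1), (-1 : ℝ) ^ j *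
      p.coeff j * p.coeff (2 * (n - k) - j) := by
    rw [Finset.mul_sum]
    symm
    have h6 : ∑ j ∈ range (2 * (n - k) + 1), (-1) ^ n * ((-1 : ℝ) ^ j *
      p.coeff j * p.coeff (2 * (n - k) - j)) = ∑ j ∈ (range (2 * k + 1)).image (fun j => n - j),
        (-1) ^ n * ((-1 : ℝ) ^ j * p.coeff j * p.coeff (2 * (n - k) - j)) := by
      symm
      apply Finset.sum_subset
      · intro i hi
        rw [Finset.mem_image] at hi
        obtain ⟨j, hj, rfl⟩ := hi
        rw [Finset.mem_range] at hj ⊢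
        omega
      · intro i hi hi2
        rw [Finset.mem_range] at hi
        by_cases h7 : n < i
        · rw [hz i h7]; ring
        · have h8 : n < 2 * (n - k) - i := by
            by_contra h9
            apply hi2
            rw [Finset.mem_image]
            refine ⟨n - i, ?_, by omega⟩
            rw [Finset.mem_range]
            omega
          rw [hz _ h8]; ring
    rw [h6, Finset.sum_image]
    · apply Finset.sum_congr rfl
      intro j hj
      rw [Finset.mem_range] at hj
      have e0 : 2 * (n - k) - (n - j) = n - (2 * k - j) := by omega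
      rw [e0, hp, taylor_coeff n (n - j) (by omega), taylor_coeff n (n - (2 * k - j)) (by omega)]
      have e1 : n - (n - j) = j := by omega
      have e2 : n - (n - (2 * k - j)) = 2 * k - j := by omega
      rw [e1, e2, Nat.choose_symm (by omega : j ≤ n), Nat.choose_symm (by omega : 2 * k - j ≤ n)]
      have e3 : (-1 : ℝ) ^ n * (-1) ^ (n - j) = (-1) ^ j := by
        rw [← pow_add]
        have : n + (n - j) = 2 * (n - j) + j := by omega
        rw [this, pow_add, pow_mul]; simp
      calc _ = ((-1 : ℝ) ^ n * (-1) ^ (n - j)) * ((n.choose j : ℝ) * (n.choose (2 * k - j) : ℝ) *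
            nor n j x * nor n (2 * k - j) x) := by ring
        _ = _ := by rw [e3]; ring
    · intro a ha b hb hab
      simp only [Finset.coe_range, Set.mem_Iio] at ha hb
      simp only at hab
      omega
  rw [h5, h4]
  have e4 : (-1 : ℝ) ^ k * ((-1) ^ n * (-1) ^ (n - k)) = 1 := by
    rw [← pow_add, ← pow_add]
    have : k + (n + (n - k)) = 2 * n := by omega
    rw [this, pow_mul]; simp
  calc (0 : ℝ) < 1 * (∏ i ∈ range n, (Polynomial.X + Polynomial.C (s i))).coeff (n - k) := by
        rw [one_mul]; exact h3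
    _ = ((-1 : ℝ) ^ k * ((-1) ^ n * (-1) ^ (n - k))) *
        (∏ i ∈ range n, (Polynomial.X + Polynomial.C (s i))).coeff (n - k) := by rw [e4]
    _ = _ := by ring

end Pool.Agent.U136.Nor
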